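import Pool.Agent.Helper52.C2.Goals

/-! Packet C2-CLASS (MP_2b0227_gt): induction over the terms of the class. -/

namespace Pool.Agent.Helper49.C2

open Pool.Agent.Helper52.C2 Pool.Agent.Helper37.Arb LaurentPolynomial

/-- statement for parallel terms -/
def Par (t : Tangle true) : Prop :=
  ∃ S : Tg, S.HH1 ∧ S.L = lau t.data.L ∧ S.R = lau t.data.R ∧ S.F = lau t.data.b

/-- the pair of an antiparallel term is an opposite pair of tangles in HH1 -/
def Dec (P : Tangle false) : Prop :=
  ∃ S S' : Tg, S.HH1 ∧ S'.HH1 ∧ lau P.data.L = (S.mul S').F ∧ lau P.data.b = S.F * S'.F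

/-- statement of the induction -/
def St : ∀ {s : Bool}, Tangle s → Prop
  | true, t => Par t
  | false, P => GoodPair (lau P.data.L) (lau P.data.b) ∧ (HasOpp P → Dec P) ∧
      ∀ P' : Tangle false, P = .turn P' → HasOpp P' → Dec P'

theorem hasOpp_turn {P : Tangle false} (h : HasOpp (.turn P)) :
    ∃ P2 : Tangle false, P = .turn P2 ∧ HasOpp P2 := by
  cases h with
  | turnTurn h' => exact ⟨_, rfl, h'⟩

/-- shift of a tangle -/
noncomputable def sh (S : Tg) : Tg :=
  ⟨T 1 * S.L, T 1 * S.R, T 1 * S.F, by rw [mul_assoc, S.rel, mul_sub]⟩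

theorem dec_shift (hl : GoalLau) (hs : GoalShift) {P : Tangle false} (h : Dec P) :
    Dec (.turn (.turn P)) := by
  obtain ⟨S, S', h1, h2, h3, h4⟩ := h
  obtain ⟨l1, l2, l3, l4, l5⟩ := hl
  refine ⟨sh S, S', hs S 1 h1, h2, ?_, ?_⟩
  · change lau (Polynomial.X * P.data.L) = T 1 * S.R * S'.F + T 1 * S.F * S'.L
    rw [l1, l4, h3]
    change T 1 * (S.R * S'.F + S.F * S'.L) = _
    ring
  · change lau (Polynomial.X * P.data.b) = T 1 * S.F * S'.F
    rw [l1, l4, h4]
    ring

theorem dec_turn (hl : GoalLau) (hs : GoalShift) {P : Tangle false}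
    (h : ∀ P' : Tangle false, P = .turn P' → HasOpp P' → Dec P') (ho : HasOpp (.turn P)) :
    Dec (.turn P) := by
  obtain ⟨P2, rfl, h2⟩ := hasOpp_turn ho
  exact dec_shift hl hs (h P2 rfl h2)

theorem bes_bes (A B A' B' : ℝ[T;T⁻¹]) (S : Tg) :
    bes (A * B' + B * A') (B * B') S = bes A B (bes A' B' S) := by
  ext1
  · change B * B' * S.L + (A * B' + B * A') * S.F = B * (B' * S.L + A' * S.F) + A * (B' * S.F)
    ring
  · change B * B' * S.R + (A * B' + B * A') * S.F = B * (B' * S.R + A' * S.F) + A * (B' * S.F)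
    ring
  · change B * B' * S.F = B * (B' * S.F)
    ring

/-- Packet CLASS. -/
theorem goalClass : GoalClass := by
  intro hl hc hs hops
  obtain ⟨o1, o2, o3⟩ := hops
  have hl' := hl
  obtain ⟨l1, l2, l3, l4, l5⟩ := hl'
  have main : ∀ {s : Bool} (t : Tangle s), Fine t → St t := by
    intro s t h
    induction h with
    | cross =>
      refine ⟨U 1, hc, ?_, ?_, ?_⟩
      · change (1 : ℝ[T;T⁻¹]) = lau 1
        rw [l3]
      · change (T 1 : ℝ[T;T⁻¹]) = lau Polynomial.X
        rw [l4]
      · change geo 1 = lau 1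
        rw [l3, geo, if_pos (by norm_num)]
        simp
    | stack h1 h2 ih1 ih2 =>
      obtain ⟨S, s1, s2, s3, s4⟩ := ih1
      obtain ⟨S', t1, t2, t3, t4⟩ := ih2
      refine ⟨S.mul S', o1 S S' s1 t1, ?_, ?_, ?_⟩
      · change S.L * S'.L = lau (_ * _)
        rw [l1, s2, t2]
      · change S.R * S'.R = lau (_ * _)
        rw [l1, s3, t3]
      · change S.R * S'.F + S.F * S'.L = lau (_ * _ + _ * _)
        rw [l2, l1, l1, s3, s4, t2, t4]
    | beside h1 h2 ih1 ih2 =>
      obtain ⟨g, -, -⟩ := ih1
      obtain ⟨S, s1, s2, s3, s4⟩ := ih2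
      refine ⟨_, g S s1, ?_, ?_, ?_⟩
      · change _ * S.L + _ * S.F = lau (_ * _ + _ * _)
        rw [l2, l1, l1, s2, s4]
      · change _ * S.R + _ * S.F = lau (_ * _ + _ * _)
        rw [l2, l1, l1, s3, s4]
      · change _ * S.F = lau (_ * _)
        rw [l1, s4]
    | flip h ih => exact ih
    | @opposite S0 T0 h1 h2 ih1 ih2 =>
      obtain ⟨S, s1, s2, s3, s4⟩ := ih1
      obtain ⟨S', t1, t2, t3, t4⟩ := ih2
      have e1 : lau (Tangle.opposite S0 T0).data.L = (S.mul S').F := by
        change lau (_ * _ + _ * _) = S.R * S'.F + S.F * S'.L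
        rw [l2, l1, l1, s3, s4, t2, t4]
      have e2 : lau (Tangle.opposite S0 T0).data.b = S.F * S'.F := by
        change lau (_ * _) = _
        rw [l1, s4, t4]
      refine ⟨?_, ?_, ?_⟩
      · rw [e1, e2]
        exact o2 S S' s1 t1
      · intro _
        exact ⟨S, S', s1, t1, e1, e2⟩
      · intro P' h
        cases h
    | @sum P Q h1 h2 ih1 ih2 =>
      obtain ⟨g1, d1, -⟩ := ih1
      obtain ⟨g2, d2, -⟩ := ih2
      have e1 : lau (Tangle.sum P Q).data.L
          = lau P.data.L * lau Q.data.b + lau P.data.b * lau Q.data.L := by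
        change lau (_ * _ + _ * _) = _
        rw [l2, l1, l1]
      have e2 : lau (Tangle.sum P Q).data.b = lau P.data.b * lau Q.data.b := by
        change lau (_ * _) = _
        rw [l1]
      refine ⟨?_, ?_, ?_⟩
      · intro S hS
        rw [e1, e2, bes_bes]
        exact g1 _ (g2 _ hS)
      · intro ho
        cases ho with
        | sumLeft _ ho =>
          obtain ⟨S, S', s1, s2, s3, s4⟩ := d1 ho
          refine ⟨_, S', g2 S s1, s2, ?_, ?_⟩
          · rw [e1, s3, s4]
            change (S.R * S'.F + S.F * S'.L) * lau Q.data.b + S.F * S'.F * lau Q.data.L =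
              (lau Q.data.b * S.R + lau Q.data.L * S.F) * S'.F + lau Q.data.b * S.F * S'.L
            ring
          · rw [e2, s4]
            change S.F * S'.F * lau Q.data.b = lau Q.data.b * S.F * S'.F
            ring
        | sumRight _ ho =>
          obtain ⟨S, S', s1, s2, s3, s4⟩ := d2 ho
          refine ⟨_, S', g1 S s1, s2, ?_, ?_⟩
          · rw [e1, s3, s4]
            change lau P.data.L * (S.F * S'.F) + lau P.data.b * (S.R * S'.F + S.F * S'.L) =
              (lau P.data.b * S.R + lau P.data.L * S.F) * S'.F + lau P.data.b * S.F * S'.L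
            ring
          · rw [e2, s4]
            change lau P.data.b * (S.F * S'.F) = lau P.data.b * S.F * S'.F
            ring
      · intro P' h
        cases h
    | @turn P h1 h2 ih =>
      obtain ⟨-, d1, d2⟩ := ih
      refine ⟨?_, dec_turn hl hs d2, ?_⟩
      · obtain ⟨S, S', s1, s2, s3, s4⟩ := d1 h2
        have e1 : lau (Tangle.turn P).data.L = T 1 * (S.F * S'.F) := by
          change lau (Polynomial.X * P.data.b) = _
          rw [l1, l4, s4]
        have e2 : lau (Tangle.turn P).data.b = (S.mul S').F := s3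
        rw [e1, e2]
        exact o3 S S' s1 s2
      · intro P' h ho
        cases h
        exact d1 ho
    | @turnTurn P h1 ih =>
      obtain ⟨g, d1, d2⟩ := ih
      refine ⟨?_, ?_, ?_⟩
      · intro S hS
        have e1 : lau (Tangle.turn (Tangle.turn P)).data.L = T 1 * lau P.data.L := by
          change lau (Polynomial.X * P.data.L) = _
          rw [l1, l4]
        have e2 : lau (Tangle.turn (Tangle.turn P)).data.b = T 1 * lau P.data.b := by
          change lau (Polynomial.X * P.data.b) = _
          rw [l1, l4]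
        rw [e1, e2]
        have : bes (T 1 * lau P.data.L) (T 1 * lau P.data.b) S
            = sh (bes (lau P.data.L) (lau P.data.b) S) := by
          ext1
          · change T 1 * lau P.data.b * S.L + T 1 * lau P.data.L * S.F =
              T 1 * (lau P.data.b * S.L + lau P.data.L * S.F)
            ring
          · change T 1 * lau P.data.b * S.R + T 1 * lau P.data.L * S.F =
              T 1 * (lau P.data.b * S.R + lau P.data.L * S.F)
            ring
          · change T 1 * lau P.data.b * S.F = T 1 * (lau P.data.b * S.F)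
            ring
        rw [this]
        exact hs _ 1 (g S hS)
      · intro ho
        obtain ⟨P2, h, ho2⟩ := hasOpp_turn ho
        cases h
        exact dec_shift hl hs (d1 ho2)
      · intro P' h ho
        cases h
        exact dec_turn hl hs d2 ho
  exact ⟨fun t ht => main t ht, fun P hP => (main P hP).1⟩

end Pool.Agent.Helper49.C2
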